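import Pool.Agent.Lib.MP_cb6a70_gt_HB.Final

/-!
# Null-homotopic hyperspheres: both capped sides are simply connected

Let `M` be a closed connected smooth manifold of dimension `n + 1 ≥ 3` and `ι : S^n → M` a
null-homotopic smooth embedding with image `S`, and let `U`, `V` be the two sides of `S`.  If
neither `U ∪ S` nor `V ∪ S` is homotopy equivalent to the closed ball, then the two closed
manifolds obtained from `U ∪ S` and `V ∪ S` by gluing a ball along `ι` are simply connected.
-/

namespace Pool.Agent.Results.MP_cb6a70_gt.NullHypersphere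

open scoped Manifold ContDiff
open Metric

/-- The unit sphere of the Euclidean space of dimension `n + 1`. -/
abbrev Sph (n : ℕ) : Type := sphere (0 : EuclideanSpace ℝ (Fin (n + 1))) 1

/-- The closed unit ball of the Euclidean space of dimension `n + 1`. -/
abbrev Bal (n : ℕ) : Type := closedBall (0 : EuclideanSpace ℝ (Fin (n + 1))) 1

/-- `ι : S^n → M` is a smooth embedding (an injective immersion which is a homeomorphism onto its
image), in the sense of Mathlib. -/
def IsSmoothSphere {n : ℕ} {M : Type} [TopologicalSpace M]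
    [ChartedSpace (EuclideanSpace ℝ (Fin (n + 1))) M] (ι : Sph n → M) : Prop :=
  Manifold.IsSmoothEmbedding (𝓡 n) (𝓡 (n + 1)) ∞ ι

/-- `ι : S^n → M` is null-homotopic: there is a homotopy from `ι` to a constant map. -/
def IsNull {n : ℕ} {M : Type} [TopologicalSpace M] (ι : Sph n → M) : Prop :=
  ∃ (H : unitInterval × Sph n → M) (m : M), Continuous H ∧ (∀ x, H (0, x) = ι x) ∧
    ∀ x, H (1, x) = m

/-- `U` and `V` are the two sides of the image of `ι`: disjoint connected open sets whose union is
the complement of the image of `ι`. -/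
def AreSides {n : ℕ} {M : Type} [TopologicalSpace M] (ι : Sph n → M) (U V : Set M) : Prop :=
  IsOpen U ∧ IsOpen V ∧ IsConnected U ∧ IsConnected V ∧ Disjoint U V ∧
    U ∪ V = (Set.range ι)ᶜ

/-- `X` is homotopy equivalent to the closed ball of dimension `n + 1`. -/
def IsHomotopyBall (n : ℕ) (X : Type) [TopologicalSpace X] : Prop :=
  Nonempty (ContinuousMap.HomotopyEquiv X (Bal n))

/-- The relation generating the gluing of the closed unit ball to `X₀ ⊆ M` along the map `ι` of
the unit sphere: the point `x` of `X₀` is related to the point `v` of the ball exactly when `v` is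
a point of the sphere with `ι v = x`; there are no other relations. -/
def CapRel {n : ℕ} {M : Type} (ι : Sph n → M) (X₀ : Set M) (a b : X₀ ⊕ Bal n) : Prop :=
  ∃ (x : X₀) (v : Bal n) (s : Sph n), a = Sum.inl x ∧ b = Sum.inr v ∧ ι s = (x : M) ∧
    (s : EuclideanSpace ℝ (Fin (n + 1))) = v

/-- The space obtained from `X₀ ⊆ M` by gluing the closed ball along `ι` (the quotient of the
disjoint union of `X₀` and the closed ball by the equivalence relation generated by `CapRel`, with
the quotient topology) is simply connected. -/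
def CapSimplyConnected {n : ℕ} {M : Type} [TopologicalSpace M] (ι : Sph n → M)
    (X₀ : Set M) : Prop :=
  SimplyConnectedSpace (Quot (CapRel ι X₀))

theorem capRel_eq {n : ℕ} {M : Type} (ι : Sph n → M) (X₀ : Set M) :
    CapRel ι X₀ = CubeHom.CapRel ι X₀ := by
  funext a b
  apply propext
  constructor
  · rintro ⟨x, v, s, rfl, rfl, h1, h2⟩
    exact ⟨s, h1, h2⟩
  · intro h
    rcases a with x | v
    · rcases b with y | v
      · exact h.elim
      · obtain ⟨s, h1, h2⟩ := h
        exact ⟨x, v, s, rfl, rfl, h1, h2⟩
    · rcases b with y | w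
      · exact h.elim
      · exact h.elim

/-- **Main theorem.** -/
theorem result {n : ℕ} (hn : 2 ≤ n) {M : Type} [TopologicalSpace M] [T2Space M] [CompactSpace M]
    [ConnectedSpace M] [ChartedSpace (EuclideanSpace ℝ (Fin (n + 1))) M]
    [IsManifold (𝓡 (n + 1)) ∞ M] {ι : Sph n → M} (hι : IsSmoothSphere ι) (hnull : IsNull ι)
    {U V : Set M} (hUV : AreSides ι U V) (hX : ¬ IsHomotopyBall n ↥(U ∪ Set.range ι))
    (hY : ¬ IsHomotopyBall n ↥(V ∪ Set.range ι)) :
    CapSimplyConnected ι (U ∪ Set.range ι) ∧ CapSimplyConnected ι (V ∪ Set.range ι) := by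
  obtain ⟨H, m, hH, h0, h1⟩ := hnull
  obtain ⟨hU, hV, hU', hV', hd, hc⟩ := hUV
  have hc' : Continuous ι := hι.isEmbedding.continuous
  let ι' : C(Sph n, M) := ⟨ι, hc'⟩
  have hn' : ι'.Nullhomotopic :=
    ⟨m, ⟨{ toFun := H
           continuous_toFun := hH
           map_zero_left := h0
           map_one_left := h1 }⟩⟩
  have h := CubeHom.main hn ι' hι hn' U V hU hV hU' hV' hd hc hX hY
  unfold CapSimplyConnected
  rw [capRel_eq, capRel_eq]
  exact h

end Pool.Agent.Results.MP_cb6a70_gt.NullHypersphere
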